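import Pool.Agent.Helper92.PW.St

/-!
# Project PW (MP_ad0dc2_nt): module POL
-/

set_option autoImplicit false

open Polynomial

namespace Pool.Agent.Helper83.PW

open Pool.Agent.Helper92.PW

/-- the case in which the leading coefficient of the third polynomial vanishes -/
theorem pol_key (c : ℚ) (hc : ∀ r : ℚ, r ^ 3 ≠ c) (x y z : Polynomial ℚ) (d : ℕ) (hd1 : 1 ≤ d)
    (hd2 : d ≤ 2) (hx : x.natDegree ≤ d) (hy : y.natDegree ≤ d) (hz : z.natDegree ≤ d)
    (he : z.coeff d = 0) (hab : x.coeff d ^ 3 + y.coeff d ^ 3 = 0)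
    (hne : x.coeff d ≠ 0 ∨ y.coeff d ≠ 0) (h : x ^ 3 + y ^ 3 + z ^ 3 = C c) : False := by
  have hq : x.coeff d ^ 2 - x.coeff d * y.coeff d + y.coeff d ^ 2 ≠ 0 := by
    intro h0
    have h1 : (2 * x.coeff d - y.coeff d) ^ 2 + 3 * y.coeff d ^ 2 = 0 := by linear_combination 4 * h0
    have hy0 : y.coeff d = 0 := by
      have := sq_nonneg (2 * x.coeff d - y.coeff d)
      have := sq_nonneg (y.coeff d)
      have h2 : y.coeff d ^ 2 = 0 := by linarith
      exact pow_eq_zero_iff (two_ne_zero) |>.1 h2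
    have hx0 : x.coeff d = 0 := by
      rw [hy0] at h1
      have h2 : x.coeff d ^ 2 = 0 := by linarith
      exact pow_eq_zero_iff (two_ne_zero) |>.1 h2
    rcases hne with h3 | h3
    · exact h3 hx0
    · exact h3 hy0
  have hzd : z.natDegree ≤ d - 1 := by
    rw [natDegree_le_iff_coeff_eq_zero]
    intro N hN
    rcases Nat.lt_or_ge d N with h1 | h1
    · exact coeff_eq_zero_of_natDegree_lt (lt_of_le_of_lt hz h1)
    · have : N = d := by omega
      rw [this]
      exact he
  have hW : (x ^ 2 - x * y + y ^ 2).coeff (2 * d) ≠ 0 := by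
    have h1 : (x ^ 2).coeff (2 * d) = x.coeff d ^ 2 := coeff_pow_of_natDegree_le hx
    have h2 : (y ^ 2).coeff (2 * d) = y.coeff d ^ 2 := coeff_pow_of_natDegree_le hy
    have h3 : (x * y).coeff (2 * d) = x.coeff d * y.coeff d := by
      rw [two_mul]
      exact coeff_mul_add_eq_of_natDegree_le hx hy
    rw [coeff_add, coeff_sub, h1, h2, h3]
    exact hq
  have hW0 : x ^ 2 - x * y + y ^ 2 ≠ 0 := by
    intro h0
    rw [h0] at hW
    exact hW (coeff_zero _)
  have hWd : 2 * d ≤ (x ^ 2 - x * y + y ^ 2).natDegree := le_natDegree_of_ne_zero hW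
  have hmul : (x + y) * (x ^ 2 - x * y + y ^ 2) = C c - z ^ 3 := by linear_combination h
  by_cases hS : x + y = 0
  · rw [hS, zero_mul] at hmul
    have hz3 : z ^ 3 = C c := by linear_combination hmul
    have hz0 : z.natDegree = 0 := by
      have h1 : (z ^ 3).natDegree = 0 := by rw [hz3]; exact natDegree_C c
      rw [natDegree_pow] at h1
      omega
    obtain ⟨r, hr⟩ : ∃ r, z = C r := ⟨_, eq_C_of_natDegree_eq_zero hz0⟩
    rw [hr, ← C_pow] at hz3
    exact hc r (C_injective hz3)
  · have h1 : ((x + y) * (x ^ 2 - x * y + y ^ 2)).natDegree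
        = (x + y).natDegree + (x ^ 2 - x * y + y ^ 2).natDegree := natDegree_mul hS hW0
    have h2 : (C c - z ^ 3).natDegree ≤ 3 * (d - 1) := by
      refine (natDegree_sub_le _ _).trans ?_
      rw [natDegree_C]
      refine max_le (Nat.zero_le _) ?_
      rw [natDegree_pow]
      omega
    rw [← hmul, h1] at h2
    omega

theorem pol_flt (a b e : ℚ) (h : a ^ 3 + b ^ 3 + e ^ 3 = 0) : a = 0 ∨ b = 0 ∨ e = 0 := by
  by_contra hcon
  push Not at hcon
  obtain ⟨ha, hb, he⟩ := hcon
  have hF : FermatLastTheoremWith ℚ 3 := by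
    have := fermatLastTheoremThree
    exact fermatLastTheoremFor_iff_rat.1 this
  refine hF a b (-e) ha hb (neg_ne_zero.2 he) ?_
  rw [Odd.neg_pow (by decide)]
  linarith

theorem hPOL : StPOL := by
  intro c hc x y z hx hy hz h
  have main : ∀ d : ℕ, 1 ≤ d → d ≤ 2 → x.natDegree ≤ d → y.natDegree ≤ d → z.natDegree ≤ d →
      (x.coeff d = 0 ∧ y.coeff d = 0 ∧ z.coeff d = 0) := by
    intro d hd1 hd2 hxd hyd hzd
    have htop : x.coeff d ^ 3 + y.coeff d ^ 3 + z.coeff d ^ 3 = 0 := by
      have h1 : (x ^ 3 + y ^ 3 + z ^ 3).coeff (3 * d) = (C c : Polynomial ℚ).coeff (3 * d) := by rw [h]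
      rw [coeff_add, coeff_add, coeff_pow_of_natDegree_le hxd, coeff_pow_of_natDegree_le hyd,
        coeff_pow_of_natDegree_le hzd, coeff_C, if_neg (by omega)] at h1
      exact h1
    by_contra hcon
    have hne : x.coeff d ≠ 0 ∨ y.coeff d ≠ 0 ∨ z.coeff d ≠ 0 := by
      by_contra h1
      push Not at h1
      exact hcon h1
    rcases pol_flt _ _ _ htop with h0 | h0 | h0
    · refine pol_key c hc y z x d hd1 hd2 hyd hzd hxd h0 ?_ ?_ (by linear_combination h)
      · rw [h0] at htop; linarith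
      · rcases hne with h1 | h1 | h1
        · exact absurd h0 h1
        · exact Or.inl h1
        · exact Or.inr h1
    · refine pol_key c hc x z y d hd1 hd2 hxd hzd hyd h0 ?_ ?_ (by linear_combination h)
      · rw [h0] at htop; linarith
      · rcases hne with h1 | h1 | h1
        · exact Or.inl h1
        · exact absurd h0 h1
        · exact Or.inr h1
    · refine pol_key c hc x y z d hd1 hd2 hxd hyd hzd h0 ?_ ?_ h
      · rw [h0] at htop; linarith
      · rcases hne with h1 | h1 | h1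
        · exact Or.inl h1
        · exact Or.inr h1
        · exact absurd h0 h1
  have step : ∀ (p : Polynomial ℚ) (d : ℕ), p.natDegree ≤ d + 1 → p.coeff (d + 1) = 0 →
      p.natDegree ≤ d := by
    intro p d h1 h2
    rw [natDegree_le_iff_coeff_eq_zero]
    intro N hN
    rcases Nat.lt_or_ge (d + 1) N with h3 | h3
    · exact coeff_eq_zero_of_natDegree_lt (lt_of_le_of_lt h1 h3)
    · have : N = d + 1 := by omega
      rw [this]
      exact h2
  obtain ⟨hx2, hy2, hz2⟩ := main 2 (by norm_num) le_rfl hx hy hz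
  have hx1 := step x 1 hx hx2
  have hy1 := step y 1 hy hy2
  have hz1 := step z 1 hz hz2
  obtain ⟨hx3, hy3, hz3⟩ := main 1 le_rfl (by norm_num) hx1 hy1 hz1
  exact ⟨Nat.le_zero.1 (step x 0 hx1 hx3), Nat.le_zero.1 (step y 0 hy1 hy3),
    Nat.le_zero.1 (step z 0 hz1 hz3)⟩

end Pool.Agent.Helper83.PW
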